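import Pool.Agent.Helper83.EIN2.Goals
import Pool.Agent.Helper88.EIN2.LLB

/-!
# Project EIN2 (MP_06d934_gt), packet MLB: bounds in the chart `ML`
-/

set_option autoImplicit false

namespace Pool.Agent.Helper13.EIN2

open Pool.Agent.Helper83.EIN Pool.Agent.Helper83.EIN2

/-- upper bound for `1 - cs`, by the excess `z + x - y` -/
theorem sub_ub {m x y z : ℝ} (hm : 0 < m) (hx : m ≤ x) (hy : m ≤ y) (hz2 : z ≤ 2)
    (hy2 : y ≤ 2) (h : 0 ≤ z + x - y) : 1 - cs x y z ≤ 3 / m ^ 2 * (z + x - y) := by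
  have px : 0 < x := by linarith
  have py : 0 < y := by linarith
  have e : (z - x + y) * (z + x - y) / (2 * x * y) =
      (z - x + y) / (2 * x * y) * (z + x - y) := by ring
  rw [one_sub_cs px py, e]
  refine mul_le_mul_of_nonneg_right ?_ h
  rw [div_le_div_iff₀ (by positivity) (by positivity)]
  have h1 : m * m ≤ x * y := mul_le_mul hx hy hm.le px.le
  have h2 : (z - x + y) * m ^ 2 ≤ 4 * m ^ 2 := mul_le_mul_of_nonneg_right (by linarith) (sq_nonneg m)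
  have h3 : 0 < x * y := mul_pos px py
  nlinarith

/-- upper bound for `1 - cs`, by the excess `z + y - x` -/
theorem sub_ub' {m x y z : ℝ} (hm : 0 < m) (hx : m ≤ x) (hy : m ≤ y) (hz2 : z ≤ 2)
    (hx2 : x ≤ 2) (h : 0 ≤ z + y - x) : 1 - cs x y z ≤ 3 / m ^ 2 * (z + y - x) := by
  rw [Pool.Agent.Helper83.EIN2.cs_comm x y]
  exact sub_ub hm hy hx hz2 hx2 h

/-- upper bound for `1 + cs` -/
theorem add_ub {m x y z : ℝ} (hm : 0 < m) (hx : m ≤ x) (hy : m ≤ y) (hz2 : z ≤ 2)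
    (hx2 : x ≤ 2) (hy2 : y ≤ 2) (h : 0 ≤ x + y - z) :
    1 + cs x y z ≤ 3 / m ^ 2 * (x + y - z) := by
  have px : 0 < x := by linarith
  have py : 0 < y := by linarith
  have e : (x + y - z) * (x + y + z) / (2 * x * y) =
      (x + y + z) / (2 * x * y) * (x + y - z) := by ring
  rw [one_add_cs px py, e]
  refine mul_le_mul_of_nonneg_right ?_ h
  rw [div_le_div_iff₀ (by positivity) (by positivity)]
  have h1 : m * m ≤ x * y := mul_le_mul hx hy hm.le px.le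
  have h2 : (x + y + z) * m ^ 2 ≤ 6 * m ^ 2 := mul_le_mul_of_nonneg_right (by linarith) (sq_nonneg m)
  nlinarith

/-- lower bound for `1 - cs` -/
theorem sub_lb {m x y z : ℝ} (hm : 0 < m) (hx : 0 < x) (hy : 0 < y) (hx2 : x ≤ 2)
    (hy2 : y ≤ 2) (h : 0 ≤ z - x + y) (h2 : m ≤ z + x - y) :
    m / 8 * (z - x + y) ≤ 1 - cs x y z := by
  have e : (z - x + y) * (z + x - y) / (2 * x * y) =
      (z + x - y) / (2 * x * y) * (z - x + y) := by ring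
  rw [one_sub_cs hx hy, e]
  refine mul_le_mul_of_nonneg_right ?_ h
  rw [div_le_div_iff₀ (by positivity) (by positivity)]
  have h1 : x * y ≤ 2 * 2 := mul_le_mul hx2 hy2 hy.le (by norm_num)
  have h3 : m * (x * y) ≤ m * (2 * 2) := mul_le_mul_of_nonneg_left h1 hm.le
  nlinarith

/-- the final step: `E` and all excesses are `O(t)` -/
theorem core {K c c' E F₁ t a b p0 p1 p2 p3 p7 p9 F₂ F₃ : ℝ} (hK : 0 < K) (hc : 0 < c)
    (ht : 0 < t) (htc : K * t ≤ c) (ha1 : a ≤ 1) (hb : 0 ≤ b)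
    (hb1 : b ≤ 1)
    (hE : 0 ≤ E) (hF1 : c * F₁ ≤ K * E * t) (hs : F₂ + F₃ = E + F₁)
    (h0 : 0 ≤ p0) (h1 : 0 ≤ p1) (h2 : 0 ≤ p2) (h3 : 0 ≤ p3) (h7 : 0 ≤ p7) (h9 : 0 ≤ p9)
    (k0 : p0 ≤ K * E) (k2 : p2 ≤ K * E) (k7 : p7 ≤ K * F₂)
    (k9 : p9 ≤ K * F₃) (h12 : p1 ≤ 2) (hab : a + b = 1)
    (hlow : c' * E ^ 2 ≤ p0 * p1)
    (hst : p0 * p1 = t * (a * (p2 - 1) + b * (1 - p3) + (1 - p0) * (1 - p1) -
      b * ((1 - p7) * (1 - p0) + (1 - p9) * (1 - p1)))) :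
    F₁ ≤ E ∧ c' * E ≤ 7 * K * t := by
  have f1 : F₁ ≤ E := by
    have h : c * F₁ ≤ c * E := by
      have h' : K * E * t ≤ c * E := by
        have := mul_le_mul_of_nonneg_right htc hE
        linarith
      linarith
    exact le_of_mul_le_mul_left h hc
  refine ⟨f1, ?_⟩
  have hX : a * (p2 - 1) + b * (1 - p3) + (1 - p0) * (1 - p1) -
      b * ((1 - p7) * (1 - p0) + (1 - p9) * (1 - p1)) ≤ 7 * K * E := by
    have e : a * (p2 - 1) + b * (1 - p3) + (1 - p0) * (1 - p1) -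
      b * ((1 - p7) * (1 - p0) + (1 - p9) * (1 - p1)) =
        a * p2 - b * p3 - p0 - p1 + p0 * p1 + b * (p7 + p0 + p9 + p1) -
          b * (p7 * p0 + p9 * p1) := by
      linear_combination (-1 : ℝ) * hab
    rw [e]
    have q1 : a * p2 ≤ p2 := mul_le_of_le_one_left h2 ha1
    have q2 : 0 ≤ b * p3 := mul_nonneg hb h3
    have q3 : p0 * p1 ≤ p0 * 2 := mul_le_mul_of_nonneg_left h12 h0
    have q4 : b * (p7 + p0 + p9 + p1) ≤ p7 + p0 + p9 + p1 :=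
      mul_le_of_le_one_left (by linarith) hb1
    have q5 : 0 ≤ b * (p7 * p0 + p9 * p1) :=
      mul_nonneg hb (add_nonneg (mul_nonneg h7 h0) (mul_nonneg h9 h1))
    have q6 : K * F₂ + K * F₃ ≤ 2 * (K * E) := by
      have : K * (F₂ + F₃) ≤ K * (2 * E) := mul_le_mul_of_nonneg_left (by linarith) hK.le
      linarith
    have q7 : 0 ≤ K * E := mul_nonneg hK.le hE
    linarith
  have hX' : c' * E * E ≤ 7 * K * t * E := by
    have := mul_le_mul_of_nonneg_left hX ht.le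
    rw [← hst] at this
    calc c' * E * E = c' * E ^ 2 := by ring
      _ ≤ p0 * p1 := hlow
      _ ≤ t * (7 * K * E) := this
      _ = 7 * K * t * E := by ring
  rcases hE.eq_or_lt with h | h
  · rw [← h]
    have : 0 ≤ 7 * K * t := by positivity
    linarith
  · exact le_of_mul_le_mul_right hX' h

/-- **MLB**. -/
theorem mlb (hBD : BD) : MLB := by
  intro a₀ β₀ ha0 ha1 hb0 hb1
  obtain ⟨r, hr, hk⟩ := Pool.Agent.Helper88.EIN2.kap hb0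
  obtain ⟨m, hm, hm0, hm1⟩ : ∃ m > 0, m ≤ β₀ / 2 ∧ m ≤ (1 - β₀) / 2 :=
    ⟨min (β₀ / 2) ((1 - β₀) / 2), lt_min (by linarith) (by linarith), min_le_left _ _,
      min_le_right _ _⟩
  have hcpos : 0 < β₀ / (1 + β₀) := by positivity
  have hKpos : 0 < 3 / m ^ 2 := by positivity
  have hc'pos : 0 < m / 8 * (m / 8) := by positivity
  refine ⟨min r (m / 3), by positivity,
    min r (min (min (a₀ / 2) ((1 - a₀) / 2)) (min (min (β₀ / 2) ((1 - β₀) / 2))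
      (min (1 / 2) (β₀ / (1 + β₀) / (3 / m ^ 2))))), ?_,
    3 / m ^ 2 * (2 * (7 * (3 / m ^ 2) / (m / 8 * (m / 8)))), ?_⟩
  · have : 0 < 1 - a₀ := by linarith
    have : 0 < 1 - β₀ := by linarith
    positivity
  intro a β t v hN hS hv
  have hNr : Near2 a₀ β₀ r a β t := hN.mono (min_le_left _ _)
  have hN2 := hN.mono (min_le_right _ _)
  have hNa := hN2.mono (min_le_left _ _)
  have hN3 := hN2.mono (min_le_right _ _)
  have hNb := hN3.mono (min_le_left _ _)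
  have hN4 := hN3.mono (min_le_right _ _)
  have hN5 := hN4.mono (min_le_left _ _)
  have hN6 := hN4.mono (min_le_right _ _)
  have ht := hN.t0
  have ht5 := hN5.t1
  have ht6 : 3 / m ^ 2 * t ≤ β₀ / (1 + β₀) := by
    have h := hN6.t1
    rw [lt_div_iff₀ hKpos] at h
    linarith
  have qa1 := abs_lt.1 (hNa.ha.trans_le (min_le_left _ _))
  have qa2 := abs_lt.1 (hNa.ha.trans_le (min_le_right _ _))
  have qb1 := abs_lt.1 (hNb.hb.trans_le (min_le_left _ _))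
  have qb2 := abs_lt.1 (hNb.hb.trans_le (min_le_right _ _))
  have ha : 0 < a := by linarith [qa1.1]
  have ha' : 0 < 1 - a := by linarith [qa2.2]
  have hβ : 0 < β := by linarith [qb1.1]
  have hβ' : 0 < 1 - β := by linarith [qb2.2]
  have Bd := hBD a β t v ha (by linarith) hβ (by linarith) ht (by linarith) hS
  have hvr : ∀ i, |v i - (![2 * β₀, 1, β₀, 1 - β₀, β₀, 1 + β₀] : Fin 6 → ℝ) i| < r :=
    fun i ↦ (hv i).trans_le (min_le_left _ _)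
  have hvm : ∀ i, |v i - (![2 * β₀, 1, β₀, 1 - β₀, β₀, 1 + β₀] : Fin 6 → ℝ) i| < m / 3 :=
    fun i ↦ (hv i).trans_le (min_le_right _ _)
  have r1 : |v 1 - 1| < r := hvr 1
  have r4 : |v 4 - β₀| < r := hvr 4
  have r5 : |v 5 - (1 + β₀)| < r := hvr 5
  have g0 : |v 0 - 2 * β₀| < m / 3 := hvm 0
  have g1 : |v 1 - 1| < m / 3 := hvm 1
  have g2 : |v 2 - β₀| < m / 3 := hvm 2
  have g3 : |v 3 - (1 - β₀)| < m / 3 := hvm 3
  have g4 : |v 4 - β₀| < m / 3 := hvm 4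
  have g5 : |v 5 - (1 + β₀)| < m / 3 := hvm 5
  rw [abs_lt] at g0 g1 g2 g3 g4 g5
  obtain ⟨g00, g01⟩ := g0
  obtain ⟨g10, g11⟩ := g1
  obtain ⟨g20, g21⟩ := g2
  obtain ⟨g30, g31⟩ := g3
  obtain ⟨g40, g41⟩ := g4
  obtain ⟨g50, g51⟩ := g5
  have l0 : m ≤ v 0 := by linarith
  have l1 : m ≤ v 1 := by linarith
  have l2 : m ≤ v 2 := by linarith
  have l3 : m ≤ v 3 := by linarith
  have l4 : m ≤ v 4 := by linarith
  have l5 : m ≤ v 5 := by linarith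
  have u0 := Bd.u0
  have u1 : v 1 ≤ 2 := by linarith [Bd.u1]
  have u2 := Bd.u2
  have u3 := Bd.u3
  have u4 := Bd.u4
  have u5 := Bd.u5
  have p := hS.pos
  have htr : |t| < r := by rw [abs_of_pos ht]; exact hNr.t1
  obtain ⟨s01, s02, s03⟩ := Bd.s0
  obtain ⟨s11, s12, s13⟩ := Bd.s1
  obtain ⟨s21, s22, s23⟩ := Bd.t2
  obtain ⟨s31, s32, s33⟩ := Bd.t3
  have E0 : 0 ≤ v 2 + v 3 - v 1 := by linarith
  have F1 : 0 ≤ v 1 + v 4 - v 5 := by linarith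
  have F2 : 0 ≤ v 2 + v 4 - v 0 := by linarith
  have F3 : 0 ≤ v 0 + v 3 - v 5 := by linarith
  -- the twelve numbers are nonnegative
  have n0 : 0 ≤ 1 - cs (v 1) (v 2) (v 3) := sub_nonneg.2 (cs_le (p 1) (p 2) (p 3) Bd.s0)
  have n1 : 0 ≤ 1 - cs (v 1) (v 3) (v 2) := sub_nonneg.2 (cs_le (p 1) (p 3) (p 2) Bd.s0.rot.rot.swap)
  have n2 : 0 ≤ 1 + cs (v 2) (v 3) (v 1) := by linarith [le_cs (p 2) (p 3) (p 1) Bd.s0.rot]
  have n3 : 0 ≤ 1 - cs (v 4) (v 5) (v 1) := sub_nonneg.2 (cs_le (p 4) (p 5) (p 1) Bd.s1.rot)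
  have n4 : 0 ≤ 1 + cs (v 1) (v 4) (v 5) := by linarith [le_cs (p 1) (p 4) (p 5) Bd.s1]
  have n5 : 0 ≤ 1 - cs (v 1) (v 5) (v 4) := sub_nonneg.2 (cs_le (p 1) (p 5) (p 4) Bd.s1.rot.rot.swap)
  have n6 : 0 ≤ 1 + cs (v 2) (v 4) (v 0) := by linarith [le_cs (p 2) (p 4) (p 0) Bd.t2.rot]
  have n7 : 0 ≤ 1 - cs (v 0) (v 4) (v 2) := sub_nonneg.2 (cs_le (p 0) (p 4) (p 2) Bd.t2.rot.rot.swap)
  have n8 : 0 ≤ 1 - cs (v 0) (v 2) (v 4) := sub_nonneg.2 (cs_le (p 0) (p 2) (p 4) Bd.t2)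
  have n9 : 0 ≤ 1 - cs (v 0) (v 5) (v 3) := sub_nonneg.2 (cs_le (p 0) (p 5) (p 3) Bd.t3.rot.rot.swap)
  have n10 : 0 ≤ 1 + cs (v 0) (v 3) (v 5) := by linarith [le_cs (p 0) (p 3) (p 5) Bd.t3]
  have n11 : 0 ≤ 1 - cs (v 3) (v 5) (v 0) := sub_nonneg.2 (cs_le (p 3) (p 5) (p 0) Bd.t3.rot)
  have n12 : 1 - cs (v 1) (v 3) (v 2) ≤ 2 := by
    linarith [le_cs (p 1) (p 3) (p 2) Bd.s0.rot.rot.swap]
  -- upper bounds
  have m0 : 1 - cs (v 1) (v 2) (v 3) ≤ 3 / m ^ 2 * (v 2 + v 3 - v 1) := by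
    have := sub_ub' hm l1 l2 u3 u1 (by linarith)
    rwa [add_comm (v 3) (v 2)] at this
  have m1 : 1 - cs (v 1) (v 3) (v 2) ≤ 3 / m ^ 2 * (v 2 + v 3 - v 1) :=
    sub_ub' hm l1 l3 u2 u1 (by linarith)
  have m2 : 1 + cs (v 2) (v 3) (v 1) ≤ 3 / m ^ 2 * (v 2 + v 3 - v 1) :=
    add_ub hm l2 l3 u1 u2 u3 (by linarith)
  have m3 : 1 - cs (v 4) (v 5) (v 1) ≤ 3 / m ^ 2 * (v 1 + v 4 - v 5) :=
    sub_ub hm l4 l5 u1 u5 (by linarith)
  have m4 : 1 + cs (v 1) (v 4) (v 5) ≤ 3 / m ^ 2 * (v 1 + v 4 - v 5) :=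
    add_ub hm l1 l4 u5 u1 u4 (by linarith)
  have m5 : 1 - cs (v 1) (v 5) (v 4) ≤ 3 / m ^ 2 * (v 1 + v 4 - v 5) := by
    have := sub_ub hm l1 l5 u4 u5 (by linarith)
    rwa [add_comm (v 4) (v 1)] at this
  have m6 : 1 + cs (v 2) (v 4) (v 0) ≤ 3 / m ^ 2 * (v 2 + v 4 - v 0) :=
    add_ub hm l2 l4 u0 u2 u4 (by linarith)
  have m7 : 1 - cs (v 0) (v 4) (v 2) ≤ 3 / m ^ 2 * (v 2 + v 4 - v 0) :=
    sub_ub' hm l0 l4 u2 u0 (by linarith)
  have m8 : 1 - cs (v 0) (v 2) (v 4) ≤ 3 / m ^ 2 * (v 2 + v 4 - v 0) := by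
    have := sub_ub' hm l0 l2 u4 u0 (by linarith)
    rwa [add_comm (v 4) (v 2)] at this
  have m9 : 1 - cs (v 0) (v 5) (v 3) ≤ 3 / m ^ 2 * (v 0 + v 3 - v 5) := by
    have := sub_ub hm l0 l5 u3 u5 (by linarith)
    rwa [add_comm (v 3) (v 0)] at this
  have m10 : 1 + cs (v 0) (v 3) (v 5) ≤ 3 / m ^ 2 * (v 0 + v 3 - v 5) :=
    add_ub hm l0 l3 u5 u0 u3 (by linarith)
  have m11 : 1 - cs (v 3) (v 5) (v 0) ≤ 3 / m ^ 2 * (v 0 + v 3 - v 5) :=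
    sub_ub hm l3 l5 u0 u5 (by linarith)
  -- the bound of `F₁`
  have hf1 : β₀ / (1 + β₀) * (v 1 + v 4 - v 5) ≤ 3 / m ^ 2 * (v 2 + v 3 - v 1) * t := by
    have hk' := hk β t (v 1) (v 4) (v 5) hNr.hb htr r1 r4 r5
    have b1 := Pool.Agent.Helper88.EIN2.block (q := t * a * (1 + cs (v 2) (v 3) (v 1)))
      (s := t * (a * (1 - cs (v 0) (v 2) (v 4)) + a * (1 + cs (v 0) (v 3) (v 5)) +
        (1 - a) * (1 - cs (v 4) (v 5) (v 1))))
      hb0 (p 1) (p 4) (p 5) F1 hk' (by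
        linear_combination hS.e1 + hS.e4 - hS.e5) (by positivity)
    have h1 : a * (1 + cs (v 2) (v 3) (v 1)) ≤ 1 + cs (v 2) (v 3) (v 1) :=
      mul_le_of_le_one_left n2 (by linarith)
    have h2 : t * (a * (1 + cs (v 2) (v 3) (v 1))) ≤ t * (3 / m ^ 2 * (v 2 + v 3 - v 1)) :=
      mul_le_mul_of_nonneg_left (h1.trans m2) ht.le
    linarith
  -- the lower bound
  have w0 : m / 8 * (v 2 + v 3 - v 1) ≤ 1 - cs (v 1) (v 2) (v 3) := by
    have := sub_lb (m := m) (z := v 3) hm (p 1) (p 2) u1 u2 (by linarith) (by linarith)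
    have e : v 3 - v 1 + v 2 = v 2 + v 3 - v 1 := by ring
    rwa [e] at this
  have w1 : m / 8 * (v 2 + v 3 - v 1) ≤ 1 - cs (v 1) (v 3) (v 2) := by
    have := sub_lb (m := m) (z := v 2) hm (p 1) (p 3) u1 u3 (by linarith) (by linarith)
    have e : v 2 - v 1 + v 3 = v 2 + v 3 - v 1 := by ring
    rwa [e] at this
  have hlow : m / 8 * (m / 8) * (v 2 + v 3 - v 1) ^ 2 ≤
      (1 - cs (v 1) (v 2) (v 3)) * (1 - cs (v 1) (v 3) (v 2)) := by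
    calc m / 8 * (m / 8) * (v 2 + v 3 - v 1) ^ 2 =
        (m / 8 * (v 2 + v 3 - v 1)) * (m / 8 * (v 2 + v 3 - v 1)) := by ring
      _ ≤ _ := mul_le_mul w0 w1 (by positivity) n0
  obtain ⟨fE, cE⟩ := core (F₂ := v 2 + v 4 - v 0) (F₃ := v 0 + v 3 - v 5) (a := a) (b := 1 - a)
    (p3 := 1 - cs (v 4) (v 5) (v 1)) (p2 := 1 + cs (v 2) (v 3) (v 1))
    (p7 := 1 - cs (v 0) (v 4) (v 2)) (p9 := 1 - cs (v 0) (v 5) (v 3))
    hKpos hcpos ht ht6 (by linarith) ha'.le (by linarith) E0 hf1 (by ring)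
    n0 n1 n2 n3 n7 n9 m0 m2 m7 m9 n12 (by ring) hlow (by
      linear_combination star0 hS)
  -- the conclusion
  have hEt : v 2 + v 3 - v 1 ≤ 7 * (3 / m ^ 2) / (m / 8 * (m / 8)) * t := by
    rw [div_mul_eq_mul_div, le_div_iff₀ hc'pos]
    linarith
  have hEt2 : 0 ≤ 7 * (3 / m ^ 2) / (m / 8 * (m / 8)) * t := by positivity
  have fin : ∀ x F : ℝ, 0 ≤ x → x ≤ 3 / m ^ 2 * F → F ≤ 2 * (v 2 + v 3 - v 1) →
      |x / t| ≤ 3 / m ^ 2 * (2 * (7 * (3 / m ^ 2) / (m / 8 * (m / 8)))) := by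
    intro x F hx0 hx hF
    rw [abs_of_nonneg (div_nonneg hx0 ht.le), div_le_iff₀ ht]
    have h1 : 3 / m ^ 2 * F ≤ 3 / m ^ 2 * (2 * (7 * (3 / m ^ 2) / (m / 8 * (m / 8)) * t)) :=
      mul_le_mul_of_nonneg_left (by linarith) hKpos.le
    linarith
  have q0 : v 2 + v 3 - v 1 ≤ 2 * (v 2 + v 3 - v 1) := by linarith
  have q1 : v 1 + v 4 - v 5 ≤ 2 * (v 2 + v 3 - v 1) := by linarith
  have q2 : v 2 + v 4 - v 0 ≤ 2 * (v 2 + v 3 - v 1) := by linarith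
  have q3 : v 0 + v 3 - v 5 ≤ 2 * (v 2 + v 3 - v 1) := by linarith
  intro i
  fin_cases i
  · exact fin _ _ n0 m0 q0
  · exact fin _ _ n1 m1 q0
  · exact fin _ _ n2 m2 q0
  · exact fin _ _ n3 m3 q1
  · exact fin _ _ n4 m4 q1
  · exact fin _ _ n5 m5 q1
  · exact fin _ _ n6 m6 q2
  · exact fin _ _ n7 m7 q2
  · exact fin _ _ n8 m8 q2
  · exact fin _ _ n9 m9 q3
  · exact fin _ _ n10 m10 q3
  · exact fin _ _ n11 m11 q3

end Pool.Agent.Helper13.EIN2
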